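import Pool.Agent.V1148.AF13

/-!
# The discriminant exponent of the associated form is always one
-/

set_option autoImplicit false

open MvPolynomial Pool.V1148.AF

/-- For all `n ≥ 2` and `d ≥ 3`: the discriminant exists; every nondegenerate form has exactly one
associated form; and for the discriminant `Δ` the least positive `p` such that `Δ ^ p Φ` extends
to all forms is `1`. -/
theorem Pool.Agent.Results.MP_2a8a61_ag.PEqualsOne.result :
    (∀ n d : ℕ, 2 ≤ n → 3 ≤ d → ∃ Δ, IsDiscriminant n d Δ) ∧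
    (∀ n d : ℕ, 2 ≤ n → 3 ≤ d → ∀ a : Mon n d → ℂ, Nondeg (frm a) →
      ∃! G, IsAssociatedForm d (frm a) G) ∧
    (∀ n d : ℕ, 2 ≤ n → 3 ≤ d → ∀ Δ, IsDiscriminant n d Δ →
      IsLeast {p : ℕ | 0 < p ∧ Extends n d Δ p} 1) := by
  refine ⟨?_, ?_, ?_⟩
  · intro n d hn hd
    obtain ⟨m, rfl⟩ : ∃ m, n = m + 1 := ⟨n - 1, by omega⟩
    exact exists_discriminant hd (by omega)
  · intro n d _ hd a ha
    exact existsUnique_assoc (by omega) (frm_isHomogeneous a) ha
  · intro n d hn hd Δ hΔ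
    obtain ⟨m, rfl⟩ : ∃ m, n = m + 1 := ⟨n - 1, by omega⟩
    refine ⟨⟨one_pos, extends_one hd (by omega) Δ hΔ⟩, ?_⟩
    intro p hp
    exact hp.1
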